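import Pool.Agent.N728.QU.AllLT

set_option autoImplicit false

/-!
# Both signs of `λ(F(n))`, infinitely often, for almost all `F = f + c - f(h)`, `f` a monic quadratic polynomial

Let `f(X) = X² + b X`. For every integer `c ≠ 0`, `|c| ≤ K H²`, and all but at most `ε H` of the `h ≤ H` the polynomial
`F = f + c - f(h)` has the following properties: `λ(F(n))` takes each of the values `1` and `-1` infinitely often, and
`|∑_{m ≤ M} λ(F(m))| ≤ ε H` for all `M ≤ K H`.

Proof. The second property is proved in `Agent/N728/QL`, `Agent/N728/QG`, `Agent/N728/QU`: `f(m) - f(h) = u (u + 2 h + b)`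
with `u = m - h`, so the question is one about the polynomials `u² + (2 h + b) u + c` with variable linear coefficient,
for which bilinear sums over `u v + c` with an arbitrary bounded function of `v - u` are estimated, uniformly in `c`, by
an exchange of divisors between `u` and `v`, and by the theorem of Bombieri and Vinogradov for `λ`. It gives one `n`
with `F(n) > 0` and `λ(F(n)) = -1`, and the identity `F(n) F(n + 1) = F(F(n) + n)` gives both signs infinitely often.
-/

namespace Pool.Agent.Results.MP_648c71_nt.BothSignsThinFamily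

open Finset

/-- The Liouville function of `|n|`; its value at `0` is `0`. -/
noncomputable def liouville (n : ℤ) : ℝ := if n = 0 then 0 else (-1) ^ (ArithmeticFunction.cardFactors n.natAbs)

/-- The polynomial `F(X) = X² + b X + c - h² - b h`. -/
def F (b c h n : ℤ) : ℤ := n ^ 2 + b * n + (c - h ^ 2 - b * h)

/-- The conclusion for one `h`: each sign is the value of the Liouville function at infinitely many of the positive values
`F(n)`, and the sums of the Liouville function of `F(m)` over `m ≤ M`, `M ≤ K H`, are at most `ε H`. -/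
def Good (b c : ℤ) (K : ℕ) (ε : ℝ) (H h : ℕ) : Prop :=
  (∀ s : ℝ, (s = 1 ∨ s = -1) → ∀ N : ℕ, ∃ n : ℕ, N ≤ n ∧ 0 < F b c h n ∧ liouville (F b c h n) = s) ∧
    ∀ M : ℕ, M ≤ K * H → |∑ m ∈ Icc 1 M, liouville (F b c h m)| ≤ ε * H

open Classical in
/-- The number of the integers `1 ≤ h ≤ H` for which the conclusion fails. -/
noncomputable def exceptions (b c : ℤ) (K : ℕ) (ε : ℝ) (H : ℕ) : ℕ :=
  ((Icc 1 H).filter (fun h : ℕ => ¬ Good b c K ε H h)).card

lemma liouville_mul (x y : ℤ) (hx : x ≠ 0) (hy : y ≠ 0) : liouville (x * y) = liouville x * liouville y := by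
  unfold liouville
  rw [if_neg hx, if_neg hy, if_neg (mul_ne_zero hx hy), Int.natAbs_mul,
    ArithmeticFunction.cardFactors_mul (Int.natAbs_ne_zero.2 hx) (Int.natAbs_ne_zero.2 hy), pow_add]

lemma liouville_cases (x : ℤ) (hx : x ≠ 0) : liouville x = 1 ∨ liouville x = -1 := by
  unfold liouville
  rw [if_neg hx]
  exact neg_one_pow_eq_or ℝ _

/-- `F(F(n) + n) = F(n) F(n + 1)`. -/
lemma product (b c h n : ℤ) : F b c h (F b c h n + n) = F b c h n * F b c h (n + 1) := by
  unfold F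
  ring

lemma next (b c h : ℤ) (n : ℕ) (hb : b.natAbs ≤ n) (h1 : 0 < F b c h n) : 0 < F b c h ((n + 1 : ℕ) : ℤ) ∧
    ∃ w : ℕ, n < w ∧ (w : ℤ) = F b c h n + n := by
  constructor
  · have e1 : F b c h ((n + 1 : ℕ) : ℤ) = F b c h n + 2 * n + 1 + b := by
      unfold F
      push_cast
      ring
    rw [e1]
    omega
  · refine ⟨(F b c h n + n).toNat, ?_, ?_⟩ <;> omega

lemma step (b c h : ℤ) (n : ℕ) (hb : b.natAbs ≤ n) (h1 : 0 < F b c h n) (h2 : liouville (F b c h n) = -1) :
    ∃ n' : ℕ, n < n' ∧ 0 < F b c h n' ∧ liouville (F b c h n') = -1 := by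
  obtain ⟨h3, w, hw1, hw2⟩ := next b c h n hb h1
  rcases liouville_cases _ h3.ne' with h4 | h4
  · have h5 : F b c h w = F b c h n * F b c h ((n + 1 : ℕ) : ℤ) := by
      rw [hw2, product]
      push_cast
      rfl
    refine ⟨w, hw1, ?_, ?_⟩
    · rw [h5]; exact mul_pos h1 h3
    · rw [h5, liouville_mul _ _ h1.ne' h3.ne', h2, h4]
      norm_num
  · exact ⟨n + 1, Nat.lt_succ_self n, h3, h4⟩

lemma infinitely (b c h : ℤ) (n : ℕ) (hb : b.natAbs ≤ n) (h1 : 0 < F b c h n) (h2 : liouville (F b c h n) = -1) (N : ℕ) :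
    ∃ n' : ℕ, N ≤ n' ∧ b.natAbs ≤ n' ∧ 0 < F b c h n' ∧ liouville (F b c h n') = -1 := by
  induction N with
  | zero => exact ⟨n, Nat.zero_le n, hb, h1, h2⟩
  | succ N ih =>
    obtain ⟨m, m1, m0, m2, m3⟩ := ih
    obtain ⟨m', k1, k2, k3⟩ := step b c h m m0 m2 m3
    exact ⟨m', by omega, by omega, k2, k3⟩

lemma infinitely_pos (b c h : ℤ) (n : ℕ) (hb : b.natAbs ≤ n) (h1 : 0 < F b c h n) (h2 : liouville (F b c h n) = -1)
    (N : ℕ) : ∃ n' : ℕ, N ≤ n' ∧ 0 < F b c h n' ∧ liouville (F b c h n') = 1 := by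
  obtain ⟨m, m1, m0, m2, m3⟩ := infinitely b c h n hb h1 h2 N
  obtain ⟨h3, w, hw1, hw2⟩ := next b c h m m0 m2
  rcases liouville_cases _ h3.ne' with h4 | h4
  · exact ⟨m + 1, by omega, h3, h4⟩
  · have h5 : F b c h w = F b c h m * F b c h ((m + 1 : ℕ) : ℤ) := by
      rw [hw2, product]
      push_cast
      rfl
    refine ⟨w, by omega, ?_, ?_⟩
    · rw [h5]; exact mul_pos m2 h3
    · rw [h5, liouville_mul _ _ m2.ne' h3.ne', m3, h4]
      norm_num

/-- **Theorem.** -/
theorem result (b : ℤ) (ε : ℝ) (hε : 0 < ε) (K : ℕ) : ∃ H₀ : ℕ, ∀ H : ℕ, H₀ ≤ H → ∀ c : ℤ, c ≠ 0 →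
    c.natAbs ≤ K * H ^ 2 → (exceptions b c K ε H : ℝ) ≤ ε * H := by
  classical
  obtain ⟨η, hη⟩ : ∃ η : ℝ, η = min ε (1 / 2) := ⟨_, rfl⟩
  have hη0 : 0 < η := by rw [hη]; positivity
  have hη1 : η ≤ ε := by rw [hη]; exact min_le_left _ _
  have hη2 : η ≤ 1 / 2 := by rw [hη]; exact min_le_right _ _
  obtain ⟨H₀, hF⟩ := Pool.Agent.N728.QU.finalLT 1 b le_rfl η (K + 4) hη0
  refine ⟨max H₀ (b.natAbs + 1), fun H hH c hc hcK => ?_⟩
  have hH0 : H₀ ≤ H := (le_max_left _ _).trans hH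
  have hHb : b.natAbs + 1 ≤ H := (le_max_right _ _).trans hH
  have hH1 : 1 ≤ H := by omega
  have hHr : (1 : ℝ) ≤ H := by exact_mod_cast hH1
  have h4 := hF H hH0 c hc (hcK.trans (Nat.mul_le_mul_right _ (Nat.le_add_right K 4)))
  refine le_trans ?_ (h4.trans (mul_le_mul_of_nonneg_right hη1 (by positivity)))
  unfold exceptions
  rw [Nat.cast_le]
  apply card_le_card
  intro h hh
  rw [mem_filter] at hh ⊢
  refine ⟨hh.1, ?_⟩
  by_contra hcon
  push Not at hcon
  apply hh.2
  have hhH : h ≤ H := (mem_Icc.1 hh.1).2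
  have hh1 : 1 ≤ h := (mem_Icc.1 hh.1).1
  have e0 : ∀ m : ℕ, Pool.Agent.N728.QG.lam (Pool.Agent.N728.QU.Vg 1 b 1 c h m) = liouville (F b c h m) := by
    intro m
    have e1 : Pool.Agent.N728.QU.Vg 1 b 1 c h m = F b c h m := by
      unfold Pool.Agent.N728.QU.Vg F
      ring
    rw [e1]
    rfl
  simp only [e0] at hcon
  -- positivity beyond `(K + 2) H`
  have hpos : ∀ m : ℕ, (K + 2) * H < m → 0 < F b c h m ∧ b.natAbs ≤ m := by
    intro m hm
    have hm' : (K + 2) * H + 1 ≤ m := hm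
    have hKH : K * H + 2 * H + 1 ≤ m := by rw [← add_mul]; exact hm'
    refine ⟨?_, by omega⟩
    have e1 : F b c h m = ((m : ℤ) - h) * (m + h + b) + c := by unfold F; ring
    rw [e1]
    have e2 : -((K : ℤ) * (H : ℤ) ^ 2) ≤ c := by
      have h1 : (c.natAbs : ℤ) ≤ (K : ℤ) * (H : ℤ) ^ 2 := by exact_mod_cast hcK
      omega
    have e3 : (K : ℤ) * H + 2 * H + 1 ≤ m := by exact_mod_cast hKH
    have e4 : (h : ℤ) ≤ H := by exact_mod_cast hhH
    have e4' : (1 : ℤ) ≤ h := by exact_mod_cast hh1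
    have e5 : -(H : ℤ) ≤ b := by omega
    have e6 : ((K : ℤ) + 1) * H ≤ (m : ℤ) - h := by linarith
    have e7 : ((K : ℤ) + 1) * H ≤ (m : ℤ) + h + b := by linarith
    have e8 : (0 : ℤ) ≤ ((K : ℤ) + 1) * H := by positivity
    have e9 : (((K : ℤ) + 1) * H) * (((K : ℤ) + 1) * H) ≤ ((m : ℤ) - h) * (m + h + b) :=
      mul_le_mul e6 e7 e8 (e8.trans e6)
    have e10 : (K : ℤ) * (H : ℤ) ^ 2 < (((K : ℤ) + 1) * H) * (((K : ℤ) + 1) * H) := by
      have f1 : (1 : ℤ) ≤ H := by exact_mod_cast hH1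
      have f2 : (0 : ℤ) ≤ K := Int.natCast_nonneg K
      have f3 : (0 : ℤ) < (H : ℤ) ^ 2 := by positivity
      nlinarith [mul_nonneg (mul_nonneg f2 f2) f3.le, mul_nonneg f2 f3.le]
    linarith
  -- one `m` with the value `-1`
  obtain ⟨m, hm1, hm2⟩ : ∃ m : ℕ, (K + 2) * H < m ∧ liouville (F b c h m) = -1 := by
    by_contra hno
    push Not at hno
    have hall : ∀ m : ℕ, (K + 2) * H < m → liouville (F b c h m) = 1 := by
      intro m hm
      rcases liouville_cases _ (hpos m hm).1.ne' with h5 | h5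
      · exact h5
      · exact absurd h5 (hno m hm)
    have a1 := hcon ((K + 2) * H) (Nat.mul_le_mul_right _ (by omega))
    have a2 := hcon ((K + 4) * H) le_rfl
    have a3 : Icc 1 ((K + 4) * H) = Icc 1 ((K + 2) * H) ∪ Ioc ((K + 2) * H) ((K + 4) * H) := by
      have : (K + 2) * H ≤ (K + 4) * H := Nat.mul_le_mul_right _ (by omega)
      ext t
      simp only [mem_Icc, mem_union, mem_Ioc]
      omega
    have a4 : Disjoint (Icc 1 ((K + 2) * H)) (Ioc ((K + 2) * H) ((K + 4) * H)) := by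
      rw [disjoint_left]
      intro t h1 h2
      rw [mem_Icc] at h1
      rw [mem_Ioc] at h2
      omega
    have a5 : ∑ m ∈ Ioc ((K + 2) * H) ((K + 4) * H), liouville (F b c h m) = 2 * H := by
      rw [sum_congr rfl (fun m hm => hall m (mem_Ioc.1 hm).1), sum_const, Nat.card_Ioc, nsmul_eq_mul, mul_one]
      have : (K + 4) * H - (K + 2) * H = 2 * H := by
        rw [← Nat.sub_mul]
        congr 1
        omega
      rw [this]
      push_cast
      ring
    rw [a3, sum_union a4, a5] at a2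
    have b1 := abs_le.1 a1
    have b2 := abs_le.1 a2
    have b3 : η * (H : ℝ) ≤ 1 / 2 * H := mul_le_mul_of_nonneg_right hη2 (by positivity)
    linarith [b1.1, b2.2]
  refine ⟨?_, fun M hM => (hcon M (hM.trans (Nat.mul_le_mul_right _ (Nat.le_add_right K 4)))).trans
    (mul_le_mul_of_nonneg_right hη1 (by positivity))⟩
  rintro s (hs | hs) N
  · obtain ⟨n', n1, n2, n3⟩ := infinitely_pos b c h m (hpos m hm1).2 (hpos m hm1).1 hm2 N
    exact ⟨n', n1, n2, by rw [hs]; exact n3⟩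
  · obtain ⟨n', n1, n0, n2, n3⟩ := infinitely b c h m (hpos m hm1).2 (hpos m hm1).1 hm2 N
    exact ⟨n', n1, n2, by rw [hs]; exact n3⟩

end Pool.Agent.Results.MP_648c71_nt.BothSignsThinFamily
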