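import Pool.Agent.N718.GV.Fin
import Pool.Agent.N718.GU.Count
import Pool.Agent.N718.GU.Div
import Pool.Agent.N718.GU.Farey
import Pool.Agent.N718.GU.Interp
import Pool.Agent.N718.GU.Ls
import Pool.Agent.N718.GU.Nonneg
import Pool.Agent.N718.GU.Shift
import Pool.Agent.N718.GU.Small
import Pool.Agent.N718.GU.VQ
import Pool.Agent.N718.GU.Unif

/-!
# The Liouville function at the values of almost all polynomials is Gowers uniform

For almost all polynomials `f = c_0 + c_1 X + ... + c_d X^d` with `|c_i| ≤ H_i` the function `n ↦ λ(f(n))`, `n ≤ x`, has a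
small Gowers norm `U^s`, for every `s` with `2^s ≤ d + 1`, if all `H_i` are at least `x^(3 · 2^s)` and `x` is large in
terms of `d` and the precision only. The same holds for all products
`λ(f(a_0 n + b_0)) F_1(n, f(a_1 n + b_1)) ... F_k(n, f(a_k n + b_k))` with ARBITRARY bounded functions `F_i`, if
`(k + 1) 2^s ≤ d + 1`. The case `s = 1`, `F_i = λ` is Chowla's conjecture for the products `f(a_0 T + b_0) ... f(a_k T + b_k)`.
Moreover `f` may be replaced by `R + f` with an ARBITRARY function `R : ℤ → ℤ` which is at most a constant times the size of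
the polynomials of the box, for example by monic polynomials.

Proof. The Gowers norm is an average over the points `n + ω · h` of the mean value over `f` of a product of at most
`d + 1` functions of the values of `f` at distinct integers `P_0, ..., P_m`. Let `g` be the polynomial with the zeros
`P_1, ..., P_m`. The mean value over `f` does not change much if `f` is replaced by `f + a g`, `1 ≤ a ≤ A`, and then only
the value at `P_0` changes. So we need cancellation in the short progressions `f(P_0) + a g(P_0)`, for most `f`. The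
difference `q = g(P_0)` is as large as a power of `x`. By Fourier analysis modulo `q` this is a question about the
exponential sums of `λ` over short intervals at the fractions with denominator `r`, for the divisors `r` of `q`. For small
`r` we use the theorem of Matomaki, Radziwill and Tao (in the form of the library `TH823/MRS`), for the large `r` the large
sieve, since each large `r` divides `q = ∏ (P_0 - P_j)` only for few choices of the points.

Parts of the Lean proof were written by helper755 (Count, Shift, Interp, VQ, Farey, Nonneg), helper368 (Ls, Unif) and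
helper702 (Div, Small).
-/

set_option autoImplicit false

namespace Pool.Agent.Results.MP_648c71_nt.GowersUniformity

open Finset

/-- the Liouville function on the integers: `(-1)^Ω(|m|)` for `m ≠ 0`, and `0` at `0` -/
noncomputable def lam (m : ℤ) : ℝ := if m = 0 then 0 else (-1) ^ ArithmeticFunction.cardFactors m.natAbs

/-- the Moebius function at `|m|`, and `0` at `0` -/
noncomputable def mob (m : ℤ) : ℝ := (ArithmeticFunction.moebius m.natAbs : ℤ)

/-- the value `c_0 + c_1 n + ... + c_d n^d` -/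
def value {d : ℕ} (c : Fin (d + 1) → ℤ) (n : ℤ) : ℤ := ∑ i : Fin (d + 1), c i * n ^ (i : ℕ)

/-- the coefficients `c_0, ..., c_d` with `|c_i| ≤ H_i` -/
noncomputable def box {d : ℕ} (H : Fin (d + 1) → ℕ) : Finset (Fin (d + 1) → ℤ) := Fintype.piFinset (fun i => Icc (-(H i : ℤ)) (H i))

/-- the point `n + ∑_{l ∈ ω} h_l` -/
def point {s : ℕ} (n : ℤ) (h : Fin s → ℤ) (ω : Finset (Fin s)) : ℤ := n + ∑ l ∈ ω, h l

open Classical in
/-- `∑_{n, h_1, ..., h_s} ∏_{ω ⊆ {1, ..., s}} g_x(n + ∑_{l ∈ ω} h_l)`, where `g_x` is `g` on `{1, ..., x}` and `0` elsewhere: the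
`2^s`-th power of the Gowers norm `U^s` of `g_x`, multiplied by a quantity of the order of `x^(s+1)`. -/
noncomputable def gowers (s x : ℕ) (g : ℤ → ℝ) : ℝ :=
  ∑ h ∈ Fintype.piFinset (fun _ : Fin s => Icc (-(x : ℤ)) x), ∑ n ∈ Icc (1 : ℤ) x,
    ∏ ω : Finset (Fin s), if 1 ≤ point n h ω ∧ point n h ω ≤ x then g (point n h ω) else 0

/-- for `s = 1` this is the square of the sum over `1 ≤ n ≤ x` (not used below) -/
lemma gowers_one (x : ℕ) (g : ℤ → ℝ) : gowers 1 x g = (∑ n ∈ Icc (1 : ℤ) x, g n) ^ 2 := by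
  classical
  unfold gowers point
  rw [pow_two, sum_mul_sum, sum_comm]
  refine sum_congr rfl fun n hn => ?_
  rw [mem_Icc] at hn
  have h1 : ∀ h : Fin 1 → ℤ, (∏ ω : Finset (Fin 1), if 1 ≤ n + ∑ l ∈ ω, h l ∧ n + ∑ l ∈ ω, h l ≤ x then g (n + ∑ l ∈ ω, h l) else 0) =
      g n * (if 1 ≤ n + h 0 ∧ n + h 0 ≤ x then g (n + h 0) else 0) := by
    intro h
    have h2 : (univ : Finset (Finset (Fin 1))) = {∅, {0}} := by decide
    rw [h2, prod_pair (by decide)]
    simp only [sum_empty, add_zero, sum_singleton]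
    rw [if_pos hn]
  rw [sum_congr rfl fun h _ => h1 h, ← mul_sum, ← mul_sum]
  congr 1
  symm
  rw [← sum_filter_add_sum_filter_not (Fintype.piFinset (fun _ : Fin 1 => Icc (-(x : ℤ)) x)) (fun h => 1 ≤ n + h 0 ∧ n + h 0 ≤ x)]
  rw [sum_eq_zero (s := (Fintype.piFinset (fun _ : Fin 1 => Icc (-(x : ℤ)) x)).filter (fun h => ¬ (1 ≤ n + h 0 ∧ n + h 0 ≤ x)))
    (fun h hh => if_neg (mem_filter.mp hh).2), add_zero]
  refine sum_nbij' (fun m => (fun _ : Fin 1 => m - n)) (fun h => n + h 0) ?_ ?_ ?_ ?_ ?_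
  · intro m hm
    rw [mem_Icc] at hm
    rw [mem_filter, Fintype.mem_piFinset]
    refine ⟨fun _ => by rw [mem_Icc]; omega, ?_⟩
    show 1 ≤ n + (m - n) ∧ n + (m - n) ≤ x
    omega
  · intro h hh
    rw [mem_filter] at hh
    rw [mem_Icc]
    exact hh.2
  · intro m _
    ring
  · intro h _
    funext i
    rw [Subsingleton.elim i 0]
    ring
  · intro m hm
    rw [mem_Icc] at hm
    show g m = if 1 ≤ n + (m - n) ∧ n + (m - n) ≤ x then g (n + (m - n)) else 0
    rw [if_pos (by omega)]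
    congr 1
    ring

/-- the function `n ↦ w(n) F_0(R(a_0 n + b_0) + f(a_0 n + b_0)) F_1(n, f(a_1 n + b_1)) ... F_k(n, f(a_k n + b_k))`, with `f`
given by the coefficients `c` -/
noncomputable def prodFun {d k : ℕ} (F₀ : ℤ → ℝ) (R : ℤ → ℤ) (w : ℤ → ℝ) (F : Fin k → ℤ → ℤ → ℝ) (a b : Fin (k + 1) → ℤ)
    (c : Fin (d + 1) → ℤ) (n : ℤ) : ℝ :=
  w n * F₀ (R (a 0 * n + b 0) + value c (a 0 * n + b 0)) * ∏ i : Fin k, F i n (value c (a i.succ * n + b i.succ))

open Classical in
/-- **The Liouville function at the values of almost all polynomials is Gowers uniform.** Let `k ≥ 0`, `s ≥ 1`, `B`, `d` be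
integers with `(k + 1) 2^s ≤ d + 1` and `ε > 0`. There is `x₀` such that the following holds for all `x ≥ x₀`, all boxes
`|c_i| ≤ H_i`, `0 ≤ i ≤ d`, with `H_i ≥ x^(3 (k + 1) 2^s)` for all `i`, all linear polynomials `a_i n + b_i`, `0 ≤ i ≤ k`, with integers
`1 ≤ |a_i| ≤ B`, `|b_i| ≤ B` and `(a_i, b_i) ≠ (a_0, b_0)` for `i ≥ 1`, all functions `R : ℤ → ℤ` with
`|R(y)| ≤ B (H_0 + H_1 x + ... + H_d x^d)` for `|y| ≤ B (x + 1)` and all functions `w : ℤ → [-1, 1]` and
`F_1, ..., F_k : ℤ × ℤ → [-1, 1]`. For all but at most `ε ∏ (2 H_i + 1)` of the polynomials `f = c_0 + ... + c_d X^d` of the box the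
(not normalised) Gowers norm of
`n ↦ w(n) λ(R(a_0 n + b_0) + f(a_0 n + b_0)) F_1(n, f(a_1 n + b_1)) ... F_k(n, f(a_k n + b_k))` on `{1, ..., x}` is at most
`ε x^(s+1)`, and the same is true with `μ` in place of `λ`. -/
theorem result (k s B d : ℕ) (hs : 1 ≤ s) (hd : (k + 1) * 2 ^ s ≤ d + 1) (ε : ℝ) (hε : 0 < ε) :
    ∃ x₀ : ℕ, ∀ x : ℕ, x₀ ≤ x → ∀ H : Fin (d + 1) → ℕ, (∀ i, x ^ (3 * ((k + 1) * 2 ^ s)) ≤ H i) →
      ∀ a b : Fin (k + 1) → ℤ, (∀ i, 1 ≤ |a i| ∧ |a i| ≤ B ∧ |b i| ≤ B) → (∀ i : Fin k, (a i.succ, b i.succ) ≠ (a 0, b 0)) →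
      ∀ (R : ℤ → ℤ) (w : ℤ → ℝ) (F : Fin k → ℤ → ℤ → ℝ),
        (∀ y : ℤ, |y| ≤ B * ((x : ℤ) + 1) → |R y| ≤ B * ∑ i, (H i : ℤ) * (x : ℤ) ^ (i : ℕ)) →
        (∀ n, |w n| ≤ 1) → (∀ i n y, |F i n y| ≤ 1) →
          (#{c ∈ box H | ε * (x : ℝ) ^ (s + 1) < gowers s x (prodFun lam R w F a b c)} : ℝ) ≤ ε * #(box H) ∧
          (#{c ∈ box H | ε * (x : ℝ) ^ (s + 1) < gowers s x (prodFun mob R w F a b c)} : ℝ) ≤ ε * #(box H) := by
  have hGP : Pool.Agent.N718.GV.P_GPB := Pool.Agent.N718.GV.t_GPB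
    Pool.Agent.N718.GU.t_INTERP Pool.Agent.N718.GU.t_VQ Pool.Agent.N718.GU.t_FAREY Pool.Agent.N718.GU.t_LS
    Pool.Agent.N718.GU.t_DIV Pool.Agent.N718.GU.t_SMALL
  have hlam : ∀ n, |Pool.Agent.N718.GU.lam n| ≤ 1 := by
    intro n
    unfold Pool.Agent.N718.GU.lam
    split_ifs
    · simp
    · rw [abs_pow, abs_neg, abs_one, one_pow]
  have hmob : ∀ n, |Pool.Agent.N718.GU.mob n| ≤ 1 := by
    intro n
    unfold Pool.Agent.N718.GU.mob
    exact_mod_cast ArithmeticFunction.abs_moebius_le_one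
  obtain ⟨x₁, h1⟩ := Pool.Agent.N718.GV.FB_main hGP Pool.Agent.N718.GU.t_NONNEG hlam Pool.Agent.N718.GU.t_UNIF.1 k s B d hs hd ε hε
  obtain ⟨x₂, h2⟩ := Pool.Agent.N718.GV.FB_main hGP Pool.Agent.N718.GU.t_NONNEG hmob Pool.Agent.N718.GU.t_UNIF.2 k s B d hs hd ε hε
  refine ⟨max x₁ x₂, fun x hx H hH a b hab hne R w F hR hw hF => ?_⟩
  have ha : ∀ i, a i ≠ 0 := by
    intro i h0
    have := (hab i).1
    rw [h0, abs_zero] at this
    omega
  have hR' : ∀ y, |y| ≤ B * ((x : ℤ) + 1) → |R y| ≤ B * (Pool.Agent.N718.GV.sz H x : ℤ) := by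
    intro y hy
    refine (hR y hy).trans (le_of_eq ?_)
    unfold Pool.Agent.N718.GV.sz
    push_cast
    rfl
  exact ⟨h1 x (le_trans (le_max_left _ _) hx) H hH R w F hR' hw hF a b ha (fun i => (hab i).2.1) (fun i => (hab i).2.2) hne,
    h2 x (le_trans (le_max_right _ _) hx) H hH R w F hR' hw hF a b ha (fun i => (hab i).2.1) (fun i => (hab i).2.2) hne⟩

end Pool.Agent.Results.MP_648c71_nt.GowersUniformity
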