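import Mathlib
import Pool.Agent.N792.CH.FinU
import Pool.Agent.N792.CH.TrW

/-!
# Chowla's conjecture for almost all quadratic polynomials far beyond their height

The leading coefficient `a ≠ 0` is fixed, and `b`, `c` are the integers `|b|, |c| ≤ H`. For all but `τ H²` of the
polynomials `f = a T² + b T + c` the functions of Liouville and of Moebius cancel on the values `f(n)`, `u ≤ n ≤ v`,
`n ≡ r (mod q)`, for all windows `[u, v] ⊆ [-N, N]` and all residue classes to small moduli, where `N` is any number in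
the range `H ≤ N ≤ H^(12/5 - ε)`. The arguments may thus exceed the height of the polynomials by the exponent `12/5`,
the values are then as large as `H^(24/5 - ε)`, and there are only about `H²` polynomials.

Proof. A shift of the argument by about `H` transforms the polynomial into `a T² + b' T + c'` with `b'² ≤ Λ C`,
`0 < c' ≤ C`, `C = 2 |a| H²`; for every fixed `b'` the estimate of full cancellation for almost all `c' ≤ C`,
`x^(5/6+ε) ≤ C ≤ x`, of `Pool.Agent.N792.CH` is uniform in `b'`, and the pairs `(b, c)` are covered by about `2 |a|`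
values of `b'` in such a way that few pairs fall into a small exceptional set. For `N` smaller than a small multiple of
`H²` the starting theorem `MP_648c71_nt.ConstantTerms` takes the place of this estimate.
-/

set_option autoImplicit false

namespace Pool.Agent.Results.MP_648c71_nt.QuadraticsBeyondHeight

open Finset

/-- The Liouville function on the integers, with the value `0` at `0`. -/
def lam (m : ℤ) : ℤ := if m = 0 then 0 else (-1) ^ ArithmeticFunction.cardFactors m.natAbs

/-- The Moebius function on the integers, `μ(-m) = μ(m)` and `μ(0) = 0`. -/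
def mob (m : ℤ) : ℤ := ArithmeticFunction.moebius m.natAbs

/-- The integers `u ≤ n ≤ v` with `n ≡ r (mod q)`. -/
noncomputable def args (q : ℕ) (r u v : ℤ) : Finset ℤ := (Icc u v).filter (fun n => n ≡ r [ZMOD q])

/-- **Chowla's conjecture for almost all quadratic polynomials beyond their height.** Let `a ≠ 0`, `ε > 0`, `τ > 0` and
`Q` be fixed. For `H ≥ H0` and every `N` with `H ≤ N ≤ H^(12/5 - ε)`, all but at most `τ H²` of the pairs `(b, c)` of
integers with `|b|, |c| ≤ H` have the following property: for all windows `[u, v]` contained in `[-N, N]` and all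
residue classes `r` modulo `q`, `1 ≤ q ≤ Q`, the sums of `λ(f(n))` and of `μ(f(n))`, `f(n) = a n² + b n + c`, over the
integers `u ≤ n ≤ v` with `n ≡ r (mod q)` are at most `τ N` in absolute value. -/
theorem result (a : ℤ) (ha : a ≠ 0) (ε τ : ℝ) (Q : ℕ) (hε : 0 < ε) (hτ : 0 < τ) :
    ∃ H0 : ℕ, ∀ H : ℕ, H0 ≤ H → ∀ N : ℕ, H ≤ N → (N : ℝ) ≤ (H : ℝ) ^ (12 / 5 - ε) →
      ∃ Ex ⊆ Icc (-(H : ℤ)) H ×ˢ Icc (-(H : ℤ)) H, (#Ex : ℝ) ≤ τ * H ^ 2 ∧
        ∀ b c : ℤ, |b| ≤ H → |c| ≤ H → (b, c) ∉ Ex →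
        ∀ q : ℕ, 1 ≤ q → q ≤ Q → ∀ r u v : ℤ, -(N : ℤ) ≤ u → v ≤ N →
          |((∑ n ∈ args q r u v, lam (a * n ^ 2 + b * n + c) : ℤ) : ℝ)| ≤ τ * N ∧
          |((∑ n ∈ args q r u v, mob (a * n ^ 2 + b * n + c) : ℤ) : ℝ)| ≤ τ * N := by
  obtain ⟨H0, h0⟩ := Pool.Agent.N792.CH.pair_full Pool.Agent.N792.CH.mainU a ha ε τ Q hε hτ
  refine ⟨H0, fun H hH N hHN hN => ?_⟩
  obtain ⟨Ex, p1, p2, p3⟩ := h0 H hH N hHN hN
  refine ⟨Ex, p1, p2, fun b c hb hc hbc q hq hqQ r u v hu hv => ?_⟩
  have hmem : (b, c) ∈ Icc (-(H : ℤ)) H ×ˢ Icc (-(H : ℤ)) H := by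
    rw [mem_product, mem_Icc, mem_Icc]
    exact ⟨abs_le.1 hb, abs_le.1 hc⟩
  obtain ⟨g1, g2⟩ := p3 (b, c) hmem hbc q hq hqQ r u v hu hv
  have e1 : ∀ m : ℤ, ((lam m : ℤ) : ℝ) = Pool.Agent.N792.CH.lamZ m := by
    intro m
    unfold lam Pool.Agent.N792.CH.lamZ Pool.Agent.N791.C2.lam
    split_ifs
    · simp
    · push_cast; rfl
  have e2 : ∀ m : ℤ, ((mob m : ℤ) : ℝ) = Pool.Agent.N792.CH.mobZ m := fun m => rfl
  unfold args
  push_cast
  refine ⟨?_, ?_⟩
  · rw [sum_congr rfl (fun n _ => e1 _)]; exact g1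
  · rw [sum_congr rfl (fun n _ => e2 _)]; exact g2

end Pool.Agent.Results.MP_648c71_nt.QuadraticsBeyondHeight
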