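import Pool.Agent.N805.CP.B2

/-!
# Chowla's conjecture for polynomials: upper bounds for products of two polynomials of degree `d`

Upper bounds (without absolute values) for the means of Liouville's function at products of two
polynomials of degree `d` give bounds in absolute value for all polynomials of degree `d` and for all
polynomials of degree `d + 1` with a rational root. For `d = 1` the second class is the class of the
hypothesis.
-/

set_option autoImplicit false

open Polynomial Filter Topology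

namespace Pool.Agent.Results.MP_648c71_nt.UpperHalfPolynomials

/-- `(1/N) ∑ λ(f(t))` over `1 ≤ t ≤ N`, `t ≡ a` modulo `q` -/
noncomputable def mean (f : ℤ[X]) (a q N : ℕ) : ℝ :=
  (∑ t ∈ (Finset.Icc 1 N).filter (fun t => t % q = a % q),
    ((-1 : ℝ) ^ (ArithmeticFunction.cardFactors (f.eval (t : ℤ)).natAbs))) / (N : ℝ)

/-- (1) If the upper limits of the means of `λ(G K)` are at most `η / q` for all products of two polynomials
of degree `d` and all progressions, then the means of `λ(f)` have absolute value at most `√η / q` in the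
limit, for `f` of degree `d` and for `f` of degree `d + 1` with a linear factor. (2) For products of two
linear polynomials the conjecture is equivalent to its upper half. (3) The conjecture is equivalent to its
upper half for products of two polynomials of equal degree. -/
theorem result :
    (∀ d : ℕ, 1 ≤ d → ∀ η : ℝ, 0 ≤ η →
      (∀ G K : ℤ[X], G.natDegree = d → K.natDegree = d → (G * K).IsPrimitive → Squarefree (G * K) →
        ∀ a q : ℕ, 0 < q → ∀ ε : ℝ, 0 < ε → ∀ᶠ N : ℕ in atTop, mean (G * K) a q N ≤ η / q + ε) →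
      ∀ f : ℤ[X], f.IsPrimitive → Squarefree f →
        (f.natDegree = d ∨ ∃ l h : ℤ[X], f = l * h ∧ l.natDegree = 1 ∧ h.natDegree = d) →
        ∀ a q : ℕ, 0 < q → ∀ ε : ℝ, 0 < ε → ∀ᶠ N : ℕ in atTop, |mean f a q N| ≤ √η / q + ε) ∧
    ((∀ G K : ℤ[X], G.natDegree = 1 → K.natDegree = 1 → (G * K).IsPrimitive → Squarefree (G * K) →
        ∀ a q : ℕ, 0 < q → Tendsto (mean (G * K) a q) atTop (𝓝 0)) ↔
      ∀ G K : ℤ[X], G.natDegree = 1 → K.natDegree = 1 → (G * K).IsPrimitive → Squarefree (G * K) →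
        ∀ a q : ℕ, 0 < q → ∀ ε : ℝ, 0 < ε → ∀ᶠ N : ℕ in atTop, mean (G * K) a q N ≤ ε) ∧
    ((∀ f : ℤ[X], f.IsPrimitive → Squarefree f → 0 < f.natDegree →
        ∀ a q : ℕ, 0 < q → Tendsto (mean f a q) atTop (𝓝 0)) ↔
      ∀ d : ℕ, 1 ≤ d → ∀ G K : ℤ[X], G.natDegree = d → K.natDegree = d → (G * K).IsPrimitive →
        Squarefree (G * K) → ∀ a q : ℕ, 0 < q → ∀ ε : ℝ, 0 < ε →
          ∀ᶠ N : ℕ in atTop, mean (G * K) a q N ≤ ε) := by
  have hmean : ∀ (f : ℤ[X]) (a q N : ℕ), mean f a q N = Pool.Agent.N805.CP.Sp f a q N / N := by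
    intro f a q N
    unfold mean Pool.Agent.N805.CP.Sp
    rw [Finset.sum_filter]
    rfl
  have hup : ∀ (f : ℤ[X]) (a q : ℕ) (x : ℝ), (∀ᶠ N : ℕ in atTop, mean f a q N ≤ x) →
      ∀ᶠ N : ℕ in atTop, Pool.Agent.N805.CP.Sp f a q N ≤ x * N := by
    intro f a q x h
    filter_upwards [h, eventually_ge_atTop 1] with N h1 h2
    rwa [hmean, div_le_iff₀ (by exact_mod_cast h2)] at h1
  have hab : ∀ (f : ℤ[X]) (a q : ℕ) (x : ℝ), (∀ᶠ N : ℕ in atTop, |Pool.Agent.N805.CP.Sp f a q N| ≤ x * N) →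
      ∀ᶠ N : ℕ in atTop, |mean f a q N| ≤ x := by
    intro f a q x h
    filter_upwards [h, eventually_ge_atTop 1] with N h1 h2
    rw [hmean, abs_div, Nat.abs_cast, div_le_iff₀ (by exact_mod_cast h2)]
    exact h1
  have hlim : ∀ (f : ℤ[X]) (a q : ℕ), (∀ ε : ℝ, 0 < ε → ∀ᶠ N : ℕ in atTop, |mean f a q N| ≤ ε) →
      Tendsto (mean f a q) atTop (𝓝 0) := by
    intro f a q h
    rw [Metric.tendsto_nhds]
    intro ε hε
    filter_upwards [h (ε / 2) (by positivity)] with N hN
    rw [dist_zero_right, Real.norm_eq_abs]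
    linarith
  have hup0 : ∀ (f : ℤ[X]) (a q : ℕ), Tendsto (mean f a q) atTop (𝓝 0) →
      ∀ ε : ℝ, 0 < ε → ∀ᶠ N : ℕ in atTop, mean f a q N ≤ ε := by
    intro f a q h ε hε
    exact h.eventually_le_const hε
  have h1 : ∀ d : ℕ, 1 ≤ d → ∀ η : ℝ, 0 ≤ η →
      (∀ G K : ℤ[X], G.natDegree = d → K.natDegree = d → (G * K).IsPrimitive → Squarefree (G * K) →
        ∀ a q : ℕ, 0 < q → ∀ ε : ℝ, 0 < ε → ∀ᶠ N : ℕ in atTop, mean (G * K) a q N ≤ η / q + ε) →
      ∀ f : ℤ[X], f.IsPrimitive → Squarefree f →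
        (f.natDegree = d ∨ ∃ l h : ℤ[X], f = l * h ∧ l.natDegree = 1 ∧ h.natDegree = d) →
        ∀ a q : ℕ, 0 < q → ∀ ε : ℝ, 0 < ε → ∀ᶠ N : ℕ in atTop, |mean f a q N| ≤ √η / q + ε := by
    intro d hd η hη H f hf hs hcase a q hq ε hε
    rcases hcase with hc | ⟨l, h, rfl, hl, hh⟩
    · subst hc
      exact hab f a q _ (Pool.Agent.N805.CP.bound hf hs hη
        (fun G K hG hK hp hsq a q hq ε hε => hup _ a q _ (H G K hG hK hp hsq a q hq ε hε)) a q hq ε hε)
    · subst hh
      have hl0 : l.leadingCoeff ≠ 0 := by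
        rw [Ne, leadingCoeff_eq_zero]
        rintro rfl
        simp at hl
      rcases lt_or_gt_of_ne hl0 with h2 | h2
      · have e : l * h = (-l) * (-h) := by ring
        rw [e] at hf hs ⊢
        refine hab _ a q _ (Pool.Agent.N805.CP.bound_lin_pos (by rw [natDegree_neg, hl])
          (by rw [leadingCoeff_neg]; linarith) hf hs hη
          (fun G K hG hK hp hsq a q hq ε hε => hup _ a q _ (H G K (by rw [hG, natDegree_neg])
            (by rw [hK, natDegree_neg]) hp hsq a q hq ε hε)) a q hq ε hε)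
      · exact hab _ a q _ (Pool.Agent.N805.CP.bound_lin_pos hl h2 hf hs hη
          (fun G K hG hK hp hsq a q hq ε hε => hup _ a q _ (H G K hG hK hp hsq a q hq ε hε)) a q hq ε hε)
  refine ⟨h1, ⟨fun H G K hG hK hp hs a q hq => hup0 _ a q (H G K hG hK hp hs a q hq),
    fun H G K hG hK hp hs a q hq => hlim _ a q fun ε hε => ?_⟩,
    ⟨fun H d hd G K hG hK hp hs a q hq => hup0 _ a q (H _ hp hs (by
      rw [natDegree_mul (by rintro rfl; simp at hG; omega) (by rintro rfl; simp at hK; omega)]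
      omega) a q hq),
    fun H f hf hs hd a q hq => hlim _ a q fun ε hε => ?_⟩⟩
  · have h2 := h1 1 le_rfl 0 le_rfl (fun G K hG hK hp hs a q hq ε hε => by
      simpa using H G K hG hK hp hs a q hq ε hε) (G * K) hp hs (Or.inr ⟨G, K, rfl, hG, hK⟩) a q hq ε hε
    simpa using h2
  · have h2 := h1 f.natDegree hd 0 le_rfl (fun G K hG hK hp hs a q hq ε hε => by
      simpa using H f.natDegree hd G K hG hK hp hs a q hq ε hε) f hf hs (Or.inl rfl) a q hq ε hε
    simpa using h2

end Pool.Agent.Results.MP_648c71_nt.UpperHalfPolynomials
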